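import Pool.Agent.Lib.MP_d4bba2_ag.Final

/-!
The Morsification conjecture of Xiao and Reid is false.

The germ of the proof: `C` is the curve `w ^ 2 = 1 + u ^ 5` of genus 2, `p1 = (0, 1)`, `p2` its point at
infinity, `s = w - 1` with divisor `5 p1 - 5 p2`, and `S` is the smooth surface glued from
`(C minus {p1, p2}) × ℂ`, with `f = s ζ ^ 2`, and two copies of the cotangent bundle of the projective
line. The central fibre is `2 C + E1 + E2` with `E1`, `E2` smooth rational curves meeting `C`
transversally in `p1` and `p2`. Since `h⁰(C, O(p1 + p2)) = 1` the critical value function of every
deformation is constant along `C` to all orders, and every `f_t` has only one singular fibre.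
-/

universe u

namespace Pool.Agent.Results.MP_d4bba2_ag.AtomicGerm

open Pool.Agent.Lib.MP_d4bba2_ag

/-- There is a relatively minimal fibre germ which is atomic (in fact every member of every splitting
family has exactly one singular fibre), although its central fibre is neither a stable curve with
exactly one node nor a multiple of a smooth curve. -/
theorem result :
    ∃ G : FibreGerm, G.RelativelyMinimal ∧ FibreGerm.Atomic.{u} G ∧
      (∀ F : SplittingFamily.{u} G, F.ExactlyOneSingularFibre) ∧
      ¬ G.AtMostOneSingularPoint ∧ ¬ G.MultipleOfSmooth :=
  morsification_false

end Pool.Agent.Results.MP_d4bba2_ag.AtomicGerm
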